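import Mathlib
import Pool.Agent.W552.WdThree

/-!
# Weight-monodromy when the strata are generated by divisors

`D` is the cohomology of the strata of a strictly semistable formal model of any dimension `n` with
projective special fibre; nothing is assumed about the generic fibre. Suppose that the cohomology of
all strata is spanned by the classes `L^j x` with `x` a cycle class of codimension `0` or `1`, and
by inert classes orthogonal to them. Then the monodromy-weight conjecture holds in all degrees, and
the hard Lefschetz theorem holds for the generic fibre. The only positivity that is used is the
Hodge index theorem for divisors.

For instance (`Pool.Agent.W552.Wd.threefolds`) this holds for `n = 3` when the second cohomology of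
the components is spanned by divisors and the double surfaces are regular.
-/

set_option autoImplicit false

namespace Pool.Agent.Results.MP_0f76a4_ag.DivisorStrata

open Pool.Agent.W522.M Pool.Agent.W552.Wl Pool.Agent.W552.Wd

variable {E : Type} [Field E] [CharZero E]

theorem result {D : Strata E} {n : ℕ} (hD : IsReduction D n) {S : Stars D} (hS : S.IsStar n)
    {A : D.Cycles} (hA : A.IsGeometric n) {N : Subs D} (hN : IsInert S n N)
    (hT : Transcendental A n N) (h : GeneratedByDivisors A N) :
    (∀ w r, 1 ≤ r → D.MonodromyWeight w r) ∧ D.GenericLefschetz n :=
  divisors hD hS hA hN hT h

end Pool.Agent.Results.MP_0f76a4_ag.DivisorStrata
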