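import Mathlib
import Pool.Agent.W552.WlHl

/-!
# Weight-monodromy and hard Lefschetz from positivity of sources

`D` is the cohomology of the strata of a strictly semistable formal model of dimension `n` with
projective special fibre; nothing is assumed about the generic fibre. If the cohomology of the
intersections of at least two components is generated by algebraic correspondences from sources
with Hodge-type positivity, and by inert classes, then the monodromy-weight conjecture holds in all
degrees; if this also holds for the components, the hard Lefschetz theorem holds for the generic
fibre.
-/

set_option autoImplicit false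

namespace Pool.Agent.Results.MP_0f76a4_ag.PositiveSources

open Pool.Agent.W522.M Pool.Agent.W552.Wl

variable {E : Type} [Field E] [CharZero E]

theorem result {D : Strata E} {n : ℕ} (hD : IsReduction D n) {S : Stars D} (hS : S.IsStar n)
    {J : Type} {X : J → Src D} (hG : ∀ j, (X j).IsGeometric S) (hP : ∀ j, (X j).IsPositive S n)
    {N : Subs D} (hN : IsInert S n N) :
    ((∀ a, GeneratedAt X N (a + 1)) → ∀ w r, 1 ≤ r → D.MonodromyWeight w r) ∧
      ((∀ a, GeneratedAt X N a) → D.GenericLefschetz n) :=
  ⟨fun h w r hr => main hD hS X hG hP N hN h w r hr, fun h => main2 hD hS X hG hP N hN h⟩

end Pool.Agent.Results.MP_0f76a4_ag.PositiveSources
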